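import Pool.Agent.Q235.Tverberg.Reduce
import Pool.Agent.Q235.Tverberg.Moment
import Mathlib.Combinatorics.SimpleGraph.Basic
import Mathlib.Data.Fintype.BigOperators
import Mathlib.Data.Fintype.Pi
import Mathlib.Data.Fintype.Sum
import Mathlib.Tactic.NormNum

/-!
# A graph that is not 3-Tverberg

Some bipartite graph on `4096 + 4096` vertices is not partition induced on any set of points of the
moment curve of `ℝ³`; hence it is not 3-Tverberg.

Proof. On the moment curve two disjoint sets have intersecting convex hulls if and only if they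
alternate at least five times along the curve. So a partition inducing a bipartite graph is a word
over the vertices in which two vertices of the same side never alternate five times, and vertices of
different sides alternate five times exactly when they are adjacent. A shortest subword with the same
alternations between the two sides has, by the Davenport-Schinzel bound of order three, length at most
`C n log n`; so there are only `2 ^ O(n log² n)` induced bipartite graphs among the `2 ^ (n ^ 2)`
bipartite graphs.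
-/

set_option autoImplicit false

namespace Pool.Agent.Results.MP_ba10a5_co.NotThreeTverberg

open Pool.Agent.Q235.Tvb

/-- A finite set of points of `ℝ^d` is in general position: no `d + 1` of its points lie on a common
affine hyperplane `{x | a · x = s}`, `a ≠ 0`. -/
def GeneralPosition {d : ℕ} (S : Finset (Fin d → ℝ)) : Prop :=
  ∀ (a : Fin d → ℝ) (s : ℝ), a ≠ 0 → ∀ A ⊆ S, (∀ x ∈ A, ∑ i, a i * x i = s) → A.card ≤ d

/-- An abstract simplicial complex with vertex set `V`. -/
structure Complex (V : Type) where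
  /-- the faces -/
  faces : Set (Finset V)
  down : ∀ A ∈ faces, ∀ B ⊆ A, B ∈ faces
  vertex : ∀ v : V, {v} ∈ faces

/-- The faces of the nerve of the convex hulls of `P 0, ..., P (m-1)`. -/
def nerveFaces {d m : ℕ} (P : Fin m → Finset (Fin d → ℝ)) : Set (Finset (Fin m)) :=
  {I | (⋂ i ∈ I, convexHull ℝ (P i : Set (Fin d → ℝ))).Nonempty}

/-- `K` is partition induced on `S`: some partition of `S` into nonempty parts has nerve isomorphic
to `K`. -/
def PartitionInduced {d : ℕ} {V : Type} (K : Complex V) (S : Finset (Fin d → ℝ)) : Prop :=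
  ∃ (m : ℕ) (P : Fin m → Finset (Fin d → ℝ)),
    (∀ i, (P i).Nonempty) ∧ (∀ i j, i ≠ j → Disjoint (P i) (P j)) ∧
    (∀ x, x ∈ S ↔ ∃ i, x ∈ P i) ∧
    ∃ e : Fin m ≃ V, ∀ I : Finset (Fin m), I ∈ nerveFaces P ↔ I.map e.toEmbedding ∈ K.faces

/-- `K` is `d`-Tverberg. -/
def IsTverberg (d : ℕ) {V : Type} (K : Complex V) : Prop :=
  ∃ N : ℕ, ∀ S : Finset (Fin d → ℝ), GeneralPosition S → N < S.card → PartitionInduced K S

/-- A graph as a simplicial complex: the faces are the empty set, the singletons and the edges. -/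
def graphComplex {V : Type} (G : SimpleGraph V) : Complex V where
  faces := {I | I.card ≤ 2 ∧ ∀ a ∈ I, ∀ b ∈ I, a ≠ b → G.Adj a b}
  down := fun _ hA _ hB =>
    ⟨(Finset.card_le_card hB).trans hA.1, fun a ha b hb => hA.2 a (hB ha) b (hB hb)⟩
  vertex := fun v => ⟨by simp, fun a ha b hb hab => by
    rw [Finset.mem_singleton] at ha hb
    exact absurd (ha.trans hb.symm) hab⟩

/-- The bipartite graph of a relation. -/
def bip {n : ℕ} (R : Fin n → Fin n → Prop) : SimpleGraph (Fin n ⊕ Fin n) where
  Adj u v := match u, v with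
    | Sum.inl x, Sum.inr y => R x y
    | Sum.inr y, Sum.inl x => R x y
    | _, _ => False
  symm := ⟨by
    rintro (x | x) (y | y) h
    · exact h
    · exact h
    · exact h
    · exact h⟩
  loopless := ⟨by
    rintro (x | x) h
    · exact h
    · exact h⟩

/-! ### Points on the moment curve are in general position -/

theorem mom_injective {d : ℕ} (hd : 0 < d) : Function.Injective (mom d) := by
  intro s t h
  have := congrFun h ⟨0, hd⟩
  simpa [mom] using this

open Polynomial in
theorem general_mom {d : ℕ} (hd : 0 < d) (N : ℕ) :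
    GeneralPosition ((Finset.range N).image (mom d)) := by
  classical
  intro a s ha A hA hAs
  have h0 : apoly a s ≠ 0 := apoly_ne_zero s ha
  have hsub : A.image (fun x => x ⟨0, hd⟩) ⊆ (apoly a s).roots.toFinset := by
    intro r hr
    obtain ⟨x, hx, rfl⟩ := Finset.mem_image.1 hr
    obtain ⟨t, _, rfl⟩ := Finset.mem_image.1 (hA hx)
    rw [Multiset.mem_toFinset, mem_roots h0, IsRoot.def, eval_apoly]
    have h1 := hAs _ hx
    have h2 : mom d t ⟨0, hd⟩ = (t : ℝ) := by simp [mom]
    rw [h2]
    simp only [mom] at h1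
    rw [h1, sub_self]
  have hinj : (A.image (fun x => x ⟨0, hd⟩)).card = A.card := by
    apply Finset.card_image_of_injOn
    intro x hx y hy hxy
    obtain ⟨t, _, rfl⟩ := Finset.mem_image.1 (hA hx)
    obtain ⟨t', _, rfl⟩ := Finset.mem_image.1 (hA hy)
    have : (t : ℝ) = t' := by simpa [mom] using hxy
    have : t = t' := by exact_mod_cast this
    rw [this]
  rw [← hinj]
  calc (A.image (fun x => x ⟨0, hd⟩)).card ≤ (apoly a s).roots.toFinset.card :=
        Finset.card_le_card hsub
    _ ≤ (apoly a s).roots.card := Multiset.toFinset_card_le _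
    _ ≤ (apoly a s).natDegree := card_roots' _
    _ ≤ d := natDegree_apoly a s

/-! ### From an induced partition to a word -/

theorem exists_word {V : Type} [Inhabited V] (G : SimpleGraph V) (h : IsTverberg 3 (graphComplex G)) :
    ∃ (c : ℕ → V) (T : Finset ℕ), ∀ u v : V, u ≠ v →
      ((Alt c 5 T u v ∨ Alt c 5 T v u) ↔ G.Adj u v) := by
  classical
  obtain ⟨N, hN⟩ := h
  set T0 : Finset ℕ := Finset.range (N + 1) with hT0
  set S : Finset (Fin 3 → ℝ) := T0.image (mom 3) with hS
  have hcard : N < S.card := by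
    rw [hS, Finset.card_image_of_injective _ (mom_injective (by norm_num)), hT0, Finset.card_range]
    omega
  obtain ⟨m, P, _, hdisj, hcover, e, hnerve⟩ := hN S (general_mom (by norm_num) _) hcard
  have hex : ∀ t ∈ T0, ∃ i, mom 3 t ∈ P i := fun t ht =>
    (hcover _).1 (Finset.mem_image_of_mem _ ht)
  set c : ℕ → V := fun t => if h : ∃ i, mom 3 t ∈ P i then e h.choose else default with hc
  have hc1 : ∀ t i, mom 3 t ∈ P i → c t = e i := by
    intro t i hi
    have hex' : ∃ i, mom 3 t ∈ P i := ⟨i, hi⟩
    simp only [hc, dif_pos hex']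
    congr 1
    by_contra hne
    exact Finset.disjoint_left.1 (hdisj _ _ hne) hex'.choose_spec hi
  have hclass : ∀ v : V, mom 3 '' {t | t ∈ T0 ∧ c t = v} = (P (e.symm v) : Set (Fin 3 → ℝ)) := by
    intro v
    ext x
    constructor
    · rintro ⟨t, ⟨ht, hct⟩, rfl⟩
      obtain ⟨i, hi⟩ := hex t ht
      have h1 := hc1 t i hi
      have h2 : e.symm v = i := by rw [← hct, h1, Equiv.symm_apply_apply]
      rw [h2]
      exact hi
    · intro hx
      have hxS : x ∈ S := (hcover x).2 ⟨_, hx⟩
      obtain ⟨t, ht, rfl⟩ := Finset.mem_image.1 hxS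
      refine ⟨t, ⟨ht, ?_⟩, rfl⟩
      rw [hc1 t _ hx, Equiv.apply_symm_apply]
  refine ⟨c, T0, fun u v huv => ?_⟩
  have hne : e.symm u ≠ e.symm v := fun h => huv (e.symm.injective h)
  have hface := hnerve {e.symm u, e.symm v}
  have hadj : ({e.symm u, e.symm v} : Finset (Fin m)).map e.toEmbedding ∈ (graphComplex G).faces ↔
      G.Adj u v := by
    have hmap : ({e.symm u, e.symm v} : Finset (Fin m)).map e.toEmbedding = {u, v} := by
      ext w
      simp [eq_comm]
    rw [hmap]
    constructor
    · rintro ⟨_, h2⟩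
      exact h2 u (by simp) v (by simp) huv
    · intro h
      refine ⟨Finset.card_le_two, ?_⟩
      intro a ha b hb hab
      simp only [Finset.mem_insert, Finset.mem_singleton] at ha hb
      rcases ha with rfl | rfl <;> rcases hb with rfl | rfl
      · exact absurd rfl hab
      · exact h
      · exact h.symm
      · exact absurd rfl hab
  have hinter : ({e.symm u, e.symm v} : Finset (Fin m)) ∈ nerveFaces P ↔
      ∃ z, z ∈ convexHull ℝ (mom 3 '' {t | t ∈ T0 ∧ c t = u}) ∧
        z ∈ convexHull ℝ (mom 3 '' {t | t ∈ T0 ∧ c t = v}) := by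
    rw [hclass u, hclass v]
    simp only [nerveFaces, Set.mem_ofPred_eq, Finset.mem_insert, Finset.mem_singleton,
      Set.Nonempty, Set.mem_iInter]
    constructor
    · rintro ⟨z, hz⟩
      exact ⟨z, hz _ (Or.inl rfl), hz _ (Or.inr rfl)⟩
    · rintro ⟨z, h1, h2⟩
      refine ⟨z, ?_⟩
      rintro i (rfl | rfl)
      · exact h1
      · exact h2
  rw [← hadj, ← hface, hinter]
  constructor
  · rintro (h | h)
    · exact hull_inter 3 c T0 u v h
    · obtain ⟨z, h1, h2⟩ := hull_inter 3 c T0 v u h
      exact ⟨z, h2, h1⟩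
  · rintro ⟨z, h1, h2⟩
    by_contra hcon
    push Not at hcon
    exact hull_disjoint 3 c T0 u v huv hcon.1 hcon.2 z h1 h2

/-! ### Counting -/

/-- A finite word as a colouring of `ℕ`. -/
def ext {V : Type} [Inhabited V] {k : ℕ} (f : Fin k → V) : ℕ → V :=
  fun i => if h : i < k then f ⟨i, h⟩ else default

theorem alt_transfer {V : Type} [Inhabited V] (c : ℕ → V) (T : Finset ℕ) (ℓ : ℕ) (a b : V) :
    Alt c ℓ T a b ↔ Alt (ext (fun i : Fin T.card => c (T.orderEmbOfFin rfl i))) ℓ
      (Finset.range T.card) a b := by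
  classical
  constructor
  · rintro ⟨t, h1, h2, h3⟩
    have hidx : ∀ i, i < ℓ → ∃ j : Fin T.card, T.orderEmbOfFin rfl j = t i := by
      intro i hi
      have : t i ∈ Set.range (T.orderEmbOfFin rfl) := by
        rw [Finset.range_orderEmbOfFin]; exact h2 i hi
      exact this
    choose j hj using hidx
    refine ⟨fun i => if h : i < ℓ then (j i h : ℕ) else 0, ?_, ?_, ?_⟩
    · intro i hi
      dsimp only
      rw [dif_pos (by omega : i < ℓ), dif_pos hi]
      have := h1 i hi
      rw [← hj i (by omega), ← hj (i + 1) hi] at this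
      exact (T.orderEmbOfFin rfl).lt_iff_lt.1 this
    · intro i hi
      dsimp only
      rw [dif_pos hi, Finset.mem_range]
      exact (j i hi).2
    · intro i hi
      dsimp only
      rw [dif_pos hi, ← h3 i hi]
      simp only [ext, (j i hi).2, dif_pos, Fin.eta, hj i hi]
  · rintro ⟨t, h1, h2, h3⟩
    have ht : ∀ i, i < ℓ → t i < T.card := fun i hi => Finset.mem_range.1 (h2 i hi)
    refine ⟨fun i => if h : t i < T.card then T.orderEmbOfFin rfl ⟨t i, h⟩ else 0, ?_, ?_, ?_⟩
    · intro i hi
      dsimp only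
      rw [dif_pos (ht i (by omega)), dif_pos (ht (i + 1) hi)]
      exact (T.orderEmbOfFin rfl).strictMono (h1 i hi)
    · intro i hi
      dsimp only
      rw [dif_pos (ht i hi)]
      exact Finset.orderEmbOfFin_mem _ _ _
    · intro i hi
      dsimp only
      rw [dif_pos (ht i hi), ← h3 i hi]
      simp only [ext, ht i hi, dif_pos]

/-- The relation read off from a word. -/
def rel {n M : ℕ} [Inhabited (Fin n ⊕ Fin n)] (W : Σ k : Fin (M + 1), (Fin k → Fin n ⊕ Fin n)) :
    Fin n → Fin n → Prop :=
  fun x y => Alt (ext W.2) 5 (Finset.range W.1) (Sum.inl x) (Sum.inr y) ∨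
    Alt (ext W.2) 5 (Finset.range W.1) (Sum.inr y) (Sum.inl x)

theorem count_lt (m M : ℕ) (h1 : M + 1 ≤ 2 ^ 20) (h2 : 20 + (m + 1) * M < 2 ^ m * 2 ^ m) :
    Fintype.card (Σ k : Fin (M + 1), (Fin k → Fin (2 ^ m) ⊕ Fin (2 ^ m))) <
      Fintype.card (Fin (2 ^ m) → Fin (2 ^ m) → Prop) := by
  rw [Fintype.card_sigma]
  have hV : Fintype.card (Fin (2 ^ m) ⊕ Fin (2 ^ m)) = 2 ^ (m + 1) := by
    rw [Fintype.card_sum, Fintype.card_fin, pow_succ]; ring
  calc ∑ k : Fin (M + 1), Fintype.card (Fin k → Fin (2 ^ m) ⊕ Fin (2 ^ m))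
      ≤ ∑ _k : Fin (M + 1), 2 ^ ((m + 1) * M) := by
        apply Finset.sum_le_sum
        intro k _
        rw [Fintype.card_fun, hV, Fintype.card_fin, ← pow_mul]
        apply Nat.pow_le_pow_right (by norm_num)
        exact Nat.mul_le_mul_left _ (by have := k.2; omega)
    _ = (M + 1) * 2 ^ ((m + 1) * M) := by simp
    _ ≤ 2 ^ 20 * 2 ^ ((m + 1) * M) := Nat.mul_le_mul_right _ h1
    _ = 2 ^ (20 + (m + 1) * M) := by rw [pow_add]
    _ < 2 ^ (2 ^ m * 2 ^ m) := Nat.pow_lt_pow_right (by norm_num) h2
    _ = Fintype.card (Fin (2 ^ m) → Fin (2 ^ m) → Prop) := by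
        rw [Fintype.card_fun, Fintype.card_fun, Fintype.card_prop, Fintype.card_fin, ← pow_mul]

theorem exists_rel (m M : ℕ) (hM : M = 5 * (2 * (2 ^ m * (2 * m + 1)) + 1)) (h1 : M + 1 ≤ 2 ^ 20)
    (h2 : 20 + (m + 1) * M < 2 ^ m * 2 ^ m) :
    ∃ R : Fin (2 ^ m) → Fin (2 ^ m) → Prop, ¬ IsTverberg 3 (graphComplex (bip R)) := by
  classical
  by_contra hcon
  push Not at hcon
  have hpos : 0 < 2 ^ m := by positivity
  have : Inhabited (Fin (2 ^ m) ⊕ Fin (2 ^ m)) := ⟨Sum.inl ⟨0, hpos⟩⟩
  have hsurj : Function.Surjective (rel (n := 2 ^ m) (M := M)) := by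
    intro R
    obtain ⟨c, T0, hc⟩ := exists_word (bip R) (hcon R)
    obtain ⟨T, hT, hTc, hTalt⟩ := exists_short c Sum.isLeft T0 m
      (Finset.univ.filter (fun v : Fin (2 ^ m) ⊕ Fin (2 ^ m) => v.isLeft = true))
      (Finset.univ.filter (fun v : Fin (2 ^ m) ⊕ Fin (2 ^ m) => v.isLeft = false))
      (fun v => by simp) (fun v => by simp)
      (by
        have : (Finset.univ.filter (fun v : Fin (2 ^ m) ⊕ Fin (2 ^ m) => v.isLeft = true)) =
            Finset.univ.image Sum.inl := by
          ext v; cases v <;> simp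
        rw [this]
        refine Finset.card_image_le.trans ?_
        simp)
      (by
        have : (Finset.univ.filter (fun v : Fin (2 ^ m) ⊕ Fin (2 ^ m) => v.isLeft = false)) =
            Finset.univ.image Sum.inr := by
          ext v; cases v <;> simp
        rw [this]
        refine Finset.card_image_le.trans ?_
        simp)
      ⟨Sum.inl ⟨0, hpos⟩, by simp⟩ ⟨Sum.inr ⟨0, hpos⟩, by simp⟩
      (by
        intro a b hab hside hAlt
        have := (hc a b hab).1 (Or.inl hAlt)
        rcases a with a | a <;> rcases b with b | b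
        · exact this
        · simp at hside
        · simp at hside
        · exact this)
    rw [← hM] at hTc
    refine ⟨⟨⟨T.card, by omega⟩, fun i => c (T.orderEmbOfFin rfl i)⟩, ?_⟩
    funext x y
    apply propext
    have h3 := hTalt (Sum.inl x) (Sum.inr y) (by simp)
    have h4 := hc (Sum.inl x) (Sum.inr y) (by simp)
    have h5 : (bip R).Adj (Sum.inl x) (Sum.inr y) ↔ R x y := Iff.rfl
    rw [← h5, ← h4, h3, alt_transfer c T 5 (Sum.inl x), alt_transfer c T 5 (Sum.inr y)]
    exact Iff.rfl
  exact absurd (Fintype.card_le_of_surjective _ hsurj) (not_le.2 (count_lt m M h1 h2))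

/-- **There is a graph that is not 3-Tverberg**: some bipartite graph with `4096` vertices on each
side is not 3-Tverberg. -/
theorem result : ∃ G : SimpleGraph (Fin 4096 ⊕ Fin 4096),
    (∀ u v, G.Adj u v → u.isLeft ≠ v.isLeft) ∧ ¬ IsTverberg 3 (graphComplex G) := by
  obtain ⟨R, hR⟩ := exists_rel 12 1024005 (by norm_num) (by norm_num) (by norm_num)
  refine ⟨bip R, ?_, hR⟩
  rintro (x | x) (y | y) h
  · exact absurd h id
  · simp
  · simp
  · exact absurd h id

end Pool.Agent.Results.MP_ba10a5_co.NotThreeTverberg
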